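import Mathlib
import Pool.Agent.H442R2.EHI.PntErr

set_option autoImplicit false

/-!
# The prime number theorem with a relative error `O(1 / log x)`
-/

namespace Pool.Agent.Q43.BA

open Finset
open Pool.Agent.H442R2.EHI (lis pnt_err)
open Pool.Agent.H442R2.EHI.PntErrAux (step sumlog lis_succ log_pow_le)

/-- the sum `lis` is close to `y / log y` -/
lemma lis_close (y : ℕ) (hy : 2 ≤ y) :
    |lis y - y / Real.log y| ≤ 4 + ∑ n ∈ Ico 2 y, 1 / Real.log n ^ 2 := by
  have hlog2 : 0 < Real.log 2 := Real.log_pos (by norm_num)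
  have hl2 := Real.log_two_gt_d9
  induction y, hy using Nat.le_induction with
  | base =>
    have h1 : lis 2 = 1 / Real.log 2 := by
      unfold lis
      simp
    rw [h1]
    simp only [Finset.Ico_self, Finset.sum_empty, add_zero]
    push_cast
    have h2 : 1 / Real.log 2 - 2 / Real.log 2 = - (1 / Real.log 2) := by ring
    rw [h2, abs_neg, abs_of_pos (by positivity), div_le_iff₀ hlog2]
    linarith
  | succ y hy ih =>
    have hy1 : (1 : ℝ) < y := by exact_mod_cast (by omega : 1 < y)
    have hy0 : (0 : ℝ) < y := by linarith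
    have hl : 0 < Real.log y := Real.log_pos hy1
    have hl1 : 0 < Real.log ((y + 1 : ℕ) : ℝ) := Real.log_pos (by push_cast; linarith)
    have hll : Real.log y ≤ Real.log ((y + 1 : ℕ) : ℝ) :=
      Real.log_le_log (by linarith) (by push_cast; linarith)
    rw [Finset.sum_Ico_succ_top hy, lis_succ y (by omega)]
    have hs := step y hy
    have hd0 : 0 ≤ 1 / Real.log y - 1 / Real.log ((y + 1 : ℕ) : ℝ) := by
      have := one_div_le_one_div_of_le hl hll
      linarith
    have e : lis y + 1 / Real.log ((y + 1 : ℕ) : ℝ) - ((y + 1 : ℕ) : ℝ) / Real.log ((y + 1 : ℕ) : ℝ) =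
        (lis y - y / Real.log y) + y * (1 / Real.log y - 1 / Real.log ((y + 1 : ℕ) : ℝ)) := by
      push_cast
      field_simp
      ring
    rw [e]
    refine (abs_add_le _ _).trans ?_
    rw [abs_of_nonneg (mul_nonneg hy0.le hd0)]
    have h3 : y * (1 / Real.log y - 1 / Real.log ((y + 1 : ℕ) : ℝ)) ≤ 1 / Real.log y ^ 2 := by
      calc y * (1 / Real.log y - 1 / Real.log ((y + 1 : ℕ) : ℝ)) ≤ y * (1 / (y * Real.log y ^ 2)) := by
            gcongr
        _ = _ := by field_simp
    linarith

/-- the prime number theorem for the integers -/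
lemma pi_nat : ∃ C : ℝ, 0 < C ∧ ∀ y : ℕ, 2 ≤ y →
    |(Nat.primeCounting y : ℝ) - y / Real.log y| ≤ C * (y / Real.log y ^ 2) := by
  obtain ⟨C, h⟩ := pnt_err 2
  obtain ⟨C1, hC1, h1⟩ := sumlog 2
  obtain ⟨C2, hC2, h2⟩ := log_pow_le 2
  refine ⟨|C| + C1 + 4 * C2, by positivity, fun y hy => ?_⟩
  have hy1 : (1 : ℝ) < y := by exact_mod_cast (by omega : 1 < y)
  have hy0 : (0 : ℝ) < y := by linarith
  have hl : 0 < Real.log y := Real.log_pos hy1
  have e1 : (((Icc 1 y).filter (fun p : ℕ => p.Prime)).card : ℝ) = Nat.primeCounting y := by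
    have : (Icc 1 y).filter (fun p : ℕ => p.Prime) = (range (y + 1)).filter (fun p : ℕ => p.Prime) := by
      ext p
      simp only [mem_filter, mem_Icc, mem_range]
      constructor
      · rintro ⟨⟨_, h1⟩, h2⟩; exact ⟨by omega, h2⟩
      · rintro ⟨h1, h2⟩; exact ⟨⟨h2.pos, by omega⟩, h2⟩
    rw [this, Nat.primeCounting, Nat.primeCounting', Nat.count_eq_card_filter_range]
  have h3 := h y hy
  rw [e1] at h3
  have h4 := lis_close y hy
  have h5 := h1 y hy
  have h6 := h2 y (by omega)
  have h7 : (1 : ℝ) ≤ C2 * (y / Real.log y ^ 2) := by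
    have hs : 0 < √(y : ℝ) := Real.sqrt_pos.2 hy0
    have h8 : Real.sqrt (y : ℝ) ≤ y := by
      rw [Real.sqrt_le_left hy0.le]
      nlinarith
    rw [mul_div_assoc', le_div_iff₀ (by positivity), one_mul]
    exact h6.trans (mul_le_mul_of_nonneg_left h8 hC2.le)
  have h9 : C * y / Real.log y ^ 2 ≤ |C| * (y / Real.log y ^ 2) := by
    rw [mul_div_assoc]
    exact mul_le_mul_of_nonneg_right (le_abs_self C) (by positivity)
  have h10 : (Nat.primeCounting y : ℝ) - y / Real.log y =
      ((Nat.primeCounting y : ℝ) - lis y) + (lis y - y / Real.log y) := by ring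
  rw [h10]
  refine (abs_add_le _ _).trans ?_
  nlinarith

/-- **The prime number theorem with relative error `O(1 / log x)`.** -/
theorem pi_rate : ∃ C : ℝ, 0 < C ∧ ∀ x : ℝ, 2 ≤ x →
    |(Nat.primeCounting ⌊x⌋₊ : ℝ) * Real.log x / x - 1| ≤ C / Real.log x := by
  obtain ⟨C, hC, h⟩ := pi_nat
  refine ⟨4 * C + 8, by positivity, fun x hx => ?_⟩
  have hx0 : 0 < x := by linarith
  have hl2 := Real.log_two_gt_d9
  have hlx : Real.log 2 ≤ Real.log x := Real.log_le_log (by norm_num) hx
  have hlx0 : 0 < Real.log x := by linarith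
  set n := ⌊x⌋₊ with hn
  have hn2 : 2 ≤ n := Nat.le_floor (by exact_mod_cast hx)
  have hn2' : (2 : ℝ) ≤ n := by exact_mod_cast hn2
  have hn0 : (0 : ℝ) < n := by linarith
  have hnx : (n : ℝ) ≤ x := Nat.floor_le hx0.le
  have hxn : x < n + 1 := Nat.lt_floor_add_one x
  have hln : Real.log 2 ≤ Real.log n := Real.log_le_log (by norm_num) hn2'
  have hln0 : 0 < Real.log n := by linarith
  have hlnx : Real.log n ≤ Real.log x := Real.log_le_log hn0 hnx
  -- `log x ≤ log n + 1 / n`
  have h1 : Real.log x ≤ Real.log n + 1 / n := by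
    have h2 := Real.log_le_sub_one_of_pos (show 0 < x / n by positivity)
    rw [Real.log_div hx0.ne' hn0.ne'] at h2
    have h3 : x / n - 1 ≤ 1 / n := by
      rw [div_sub_one hn0.ne']
      exact div_le_div_of_nonneg_right (by linarith) hn0.le
    linarith
  have h2 : Real.log x ≤ 2 * Real.log n := by
    have h3 : Real.log x ≤ Real.log n + Real.log 2 := by
      rw [← Real.log_mul hn0.ne' (by norm_num)]
      exact Real.log_le_log hx0 (by linarith)
    linarith
  obtain ⟨h3, h4⟩ := abs_le.1 (h n hn2)
  have h5 : (n : ℝ) / Real.log n ^ 2 ≤ 2 * x / (Real.log n * Real.log x) := by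
    rw [div_le_div_iff₀ (by positivity) (by positivity)]
    calc (n : ℝ) * (Real.log n * Real.log x) ≤ x * (Real.log n * (2 * Real.log n)) := by gcongr
      _ = _ := by ring
  have h6 : Real.log x ≤ x := by
    have := Real.log_le_sub_one_of_pos hx0
    linarith
  rw [div_sub_one hx0.ne', abs_div, abs_of_pos hx0, div_le_div_iff₀ hx0 hlx0]
  -- goal: `|π log x - x| * log x ≤ (4 C + 8) x`
  have hup : (Nat.primeCounting n : ℝ) * Real.log x - x ≤ (4 * C + 8) * x / Real.log x := by
    have g1 : (Nat.primeCounting n : ℝ) ≤ n / Real.log n + C * (2 * x / (Real.log n * Real.log x)) := by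
      have := mul_le_mul_of_nonneg_left h5 hC.le
      linarith
    have g2 : (n : ℝ) / Real.log n * Real.log x ≤ x + 2 := by
      calc (n : ℝ) / Real.log n * Real.log x ≤ n / Real.log n * (Real.log n + 1 / n) := by gcongr
        _ = n + 1 / Real.log n := by field_simp
        _ ≤ x + 2 := by
          have : 1 / Real.log n ≤ 2 := by
            rw [div_le_iff₀ hln0]; linarith
          linarith
    have g3 : C * (2 * x / (Real.log n * Real.log x)) * Real.log x ≤ 4 * C * x / Real.log x := by
      have e1 : C * (2 * x / (Real.log n * Real.log x)) * Real.log x = 2 * C * x / Real.log n := by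
        field_simp
      rw [e1, div_le_div_iff₀ hln0 hlx0]
      calc 2 * C * x * Real.log x ≤ 2 * C * x * (2 * Real.log n) := by gcongr
        _ = _ := by ring
    have g4 : (2 : ℝ) ≤ 8 * x / Real.log x := by
      rw [le_div_iff₀ hlx0]
      linarith
    have g5 : (4 * C + 8) * x / Real.log x = 4 * C * x / Real.log x + 8 * x / Real.log x := by ring
    have g6 : (Nat.primeCounting n : ℝ) * Real.log x ≤
        (n / Real.log n + C * (2 * x / (Real.log n * Real.log x))) * Real.log x := by gcongr
    rw [g5]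
    linarith
  have hlow : -((4 * C + 8) * x / Real.log x) ≤ (Nat.primeCounting n : ℝ) * Real.log x - x := by
    have g1 : (n : ℝ) / Real.log n - C * (2 * x / (Real.log n * Real.log x)) ≤ Nat.primeCounting n := by
      have := mul_le_mul_of_nonneg_left h5 hC.le
      linarith
    have g2 : x - 1 ≤ (n : ℝ) / Real.log n * Real.log x := by
      calc x - 1 ≤ n := by linarith
        _ = n / Real.log n * Real.log n := by field_simp
        _ ≤ _ := by gcongr
    have g3 : C * (2 * x / (Real.log n * Real.log x)) * Real.log x ≤ 4 * C * x / Real.log x := by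
      have e1 : C * (2 * x / (Real.log n * Real.log x)) * Real.log x = 2 * C * x / Real.log n := by
        field_simp
      rw [e1, div_le_div_iff₀ hln0 hlx0]
      calc 2 * C * x * Real.log x ≤ 2 * C * x * (2 * Real.log n) := by gcongr
        _ = _ := by ring
    have g4 : (1 : ℝ) ≤ 8 * x / Real.log x := by
      rw [le_div_iff₀ hlx0]
      linarith
    have g5 : (4 * C + 8) * x / Real.log x = 4 * C * x / Real.log x + 8 * x / Real.log x := by ring
    have g6 : (n / Real.log n - C * (2 * x / (Real.log n * Real.log x))) * Real.log x ≤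
        (Nat.primeCounting n : ℝ) * Real.log x := by gcongr
    rw [g5]
    linarith
  have h7 : |(Nat.primeCounting n : ℝ) * Real.log x - x| ≤ (4 * C + 8) * x / Real.log x := by
    rw [abs_le]
    exact ⟨hlow, hup⟩
  rw [le_div_iff₀ hlx0] at h7
  exact h7

end Pool.Agent.Q43.BA
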