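import Mathlib
import Pool.Agent.W66.LR
import Pool.Agent.TH888.R.Mean
import Pool.Agent.Q43.BA.Pnt

set_option autoImplicit false

/-!
# The mean of the indicator of a prime rough part over the reduced residues, with error term
-/

open Filter Topology
open scoped Real

namespace Pool.Agent.Q43.BA

open Pool.Agent.W66 Pool.Agent.W66L
open Pool.Agent.H305R2 (roughPart SM SM_pos SMz mem_SMz ZZ VV sum_rough_eq sum_le_VV tail_le
  ZZ_le_exp ZZ_nonneg VV_nonneg VV_tendsto primesBelow_succ_eq inv_le_rpow hasSum_ZZ sum_le_ZZ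
  log_nat_tendsto)
open Pool.Agent.TH888.R (VV_rate ZZ_rate)

lemma AA_upper' {b : ℕ} (hb : 2 ≤ b) {δ : ℝ} (hδ : 0 < δ) (hδ1 : δ < 1 / 4) {q : ℕ}
    (hx0 : ∀ x : ℝ, Real.exp ((1 - 2 * δ) * (Real.log b * q)) ≤ x →
      (Nat.primeCounting ⌊x⌋₊ : ℝ) * Real.log x / x ≤ 1 + δ)
    (h1 : 3 ≤ δ * (Real.log b * q)) (h2 : b ≤ q) :
    AA b q ≤ (b : ℝ) ^ q * ((1 + δ) / ((1 - 2 * δ) * (Real.log b * q)) * VB b q +
      Real.exp (-(δ * (Real.log b * q) / 2)) * ZZ q) := by
  set lb := Real.log b with hlb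
  have hlb0 : 0 < lb := Real.log_pos (by exact_mod_cast hb)
  have hX3 : 3 ≤ δ * (lb * q) := h1
  have hq0 : (0 : ℝ) < q := by exact_mod_cast (by omega : 0 < q)
  have hlq : 0 < lb * q := by positivity
  set X := b ^ q - 1 with hX
  have hbr : (2 : ℝ) ≤ b := by exact_mod_cast hb
  have hbq : (b : ℝ) ^ q = Real.exp (lb * q) := by
    rw [mul_comm, Real.exp_nat_mul, hlb, Real.exp_log (by linarith)]
  have hXr : (X : ℝ) = (b : ℝ) ^ q - 1 := by
    rw [hX, Nat.cast_sub (Nat.one_le_pow _ _ (by omega))]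
    push_cast
    rfl
  have hXle : (X : ℝ) ≤ (b : ℝ) ^ q := by linarith
  have hXnn : (0 : ℝ) ≤ X := Nat.cast_nonneg _
  set S := Real.exp (δ * (lb * q)) with hS
  have hS0 : 0 < S := Real.exp_pos _
  have hS1 : 1 ≤ S := Real.one_le_exp (by linarith)
  rw [AA_eq hb h2, ← Finset.sum_filter_add_sum_filter_not (SMz q (X : ℝ)) (fun s : ℕ => (s : ℝ) ≤ S),
    mul_add]
  have hF : ∀ n ∈ (SMz q (X : ℝ)).filter (fun s : ℕ => (s : ℝ) ≤ S), n ∈ SM q := by
    intro n hn
    rw [Finset.mem_filter, mem_SMz hXnn] at hn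
    exact hn.1.1
  apply add_le_add
  · have hterm : ∀ s ∈ (SMz q (X : ℝ)).filter (fun s : ℕ => (s : ℝ) ≤ S),
        (if s.Coprime b then (1 : ℝ) else 0) *
          (((Finset.Ioc 0 (X / s)).filter (fun l => l.Prime ∧ q < l)).card : ℝ) ≤
        (b : ℝ) ^ q * ((1 + δ) / ((1 - 2 * δ) * (lb * q))) * copHom b s := by
      intro s hs
      rw [Finset.mem_filter, mem_SMz hXnn] at hs
      obtain ⟨⟨hs1, _⟩, hsS⟩ := hs
      have hs0 : 0 < s := SM_pos hs1
      have hs0' : (0 : ℝ) < s := by exact_mod_cast hs0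
      have hs1' : (1 : ℝ) ≤ s := by exact_mod_cast hs0
      rw [copHom_apply]
      by_cases hc : s.Coprime b
      · rw [if_pos hc, if_pos hc, one_mul]
        refine (card_inner_le _ _).trans ?_
        set x := (X : ℝ) / s with hx
        have hfl : X / s = ⌊x⌋₊ := by rw [hx, Nat.floor_div_eq_div]
        have hxlow : Real.exp ((1 - 2 * δ) * (lb * q)) ≤ x := by
          rw [hx, le_div_iff₀ hs0', hXr, hbq]
          have e1 : Real.exp (lb * q) = Real.exp ((1 - 2 * δ) * (lb * q)) *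
              (Real.exp (δ * (lb * q)) * Real.exp (δ * (lb * q))) := by
            rw [← Real.exp_add, ← Real.exp_add]; ring_nf
          rw [e1, ← hS]
          have e2 : 1 ≤ Real.exp ((1 - 2 * δ) * (lb * q)) := Real.one_le_exp (by
            apply mul_nonneg (by linarith) hlq.le)
          have e3 : 4 ≤ S := by
            have := Real.add_one_le_exp (δ * (lb * q))
            linarith
          have e4 : Real.exp ((1 - 2 * δ) * (lb * q)) * s ≤ Real.exp ((1 - 2 * δ) * (lb * q)) * S :=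
            mul_le_mul_of_nonneg_left hsS (Real.exp_pos _).le
          have e5 : 1 ≤ Real.exp ((1 - 2 * δ) * (lb * q)) * S := by nlinarith
          have e6 : Real.exp ((1 - 2 * δ) * (lb * q)) * S * 4 ≤
              Real.exp ((1 - 2 * δ) * (lb * q)) * S * S :=
            mul_le_mul_of_nonneg_left e3 (by positivity)
          nlinarith
        have hx0' : 0 < x := lt_of_lt_of_le (Real.exp_pos _) hxlow
        have hlogx : (1 - 2 * δ) * (lb * q) ≤ Real.log x := by
          rw [Real.le_log_iff_exp_le hx0']; exact hxlow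
        have hpos : 0 < (1 - 2 * δ) * (lb * q) := mul_pos (by linarith) hlq
        have h3 := hx0 x hxlow
        rw [div_le_iff₀ hx0'] at h3
        have h4 : (Nat.primeCounting (X / s) : ℝ) ≤ (1 + δ) * x / ((1 - 2 * δ) * (lb * q)) := by
          rw [hfl, le_div_iff₀ hpos]
          have : (Nat.primeCounting ⌊x⌋₊ : ℝ) * ((1 - 2 * δ) * (lb * q)) ≤
            (Nat.primeCounting ⌊x⌋₊ : ℝ) * Real.log x := mul_le_mul_of_nonneg_left hlogx (by positivity)
          linarith
        refine h4.trans ?_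
        have h5 : x ≤ (b : ℝ) ^ q * (s : ℝ)⁻¹ := by
          rw [hx, div_eq_mul_inv]
          exact mul_le_mul_of_nonneg_right hXle (by positivity)
        calc (1 + δ) * x / ((1 - 2 * δ) * (lb * q)) ≤
            (1 + δ) * ((b : ℝ) ^ q * (s : ℝ)⁻¹) / ((1 - 2 * δ) * (lb * q)) := by gcongr
          _ = _ := by ring
      · rw [if_neg hc, if_neg hc]; simp
    refine (Finset.sum_le_sum hterm).trans ?_
    rw [← Finset.mul_sum]
    have h3 := sum_le_VB b q _ hF
    have hpos : 0 < (1 - 2 * δ) * (lb * q) := mul_pos (by linarith) hlq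
    calc (b : ℝ) ^ q * ((1 + δ) / ((1 - 2 * δ) * (lb * q))) *
          ∑ s ∈ (SMz q (X : ℝ)).filter (fun s : ℕ => (s : ℝ) ≤ S), copHom b s ≤
        (b : ℝ) ^ q * ((1 + δ) / ((1 - 2 * δ) * (lb * q))) * VB b q := by gcongr
      _ = _ := by ring
  · have hterm : ∀ s ∈ (SMz q (X : ℝ)).filter (fun s : ℕ => ¬ (s : ℝ) ≤ S),
        (if s.Coprime b then (1 : ℝ) else 0) *
          (((Finset.Ioc 0 (X / s)).filter (fun l => l.Prime ∧ q < l)).card : ℝ) ≤
        (b : ℝ) ^ q * (s : ℝ)⁻¹ := by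
      intro s _
      have h3 : (((Finset.Ioc 0 (X / s)).filter (fun l => l.Prime ∧ q < l)).card : ℝ) ≤
          (X : ℝ) * (s : ℝ)⁻¹ := by
        have h4 : ((Finset.Ioc 0 (X / s)).filter (fun l => l.Prime ∧ q < l)).card ≤ X / s := by
          refine (Finset.card_filter_le _ _).trans ?_
          rw [Nat.card_Ioc, Nat.sub_zero]
        rw [← div_eq_mul_inv]
        exact le_trans (by exact_mod_cast h4) Nat.cast_div_le
      have h5 : (if s.Coprime b then (1 : ℝ) else 0) ≤ 1 := by split_ifs <;> norm_num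
      have h6 : (0 : ℝ) ≤ (if s.Coprime b then (1 : ℝ) else 0) := by split_ifs <;> norm_num
      calc _ ≤ 1 * ((X : ℝ) * (s : ℝ)⁻¹) := mul_le_mul h5 h3 (by positivity) (by norm_num)
        _ ≤ _ := by
          rw [one_mul]
          exact mul_le_mul_of_nonneg_right hXle (by positivity)
    refine (Finset.sum_le_sum hterm).trans ?_
    rw [← Finset.mul_sum]
    apply mul_le_mul_of_nonneg_left _ (by positivity)
    have h3 := tail_le q hS0 ((SMz q (X : ℝ)).filter (fun s : ℕ => ¬ (s : ℝ) ≤ S)) (by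
      intro n hn
      rw [Finset.mem_filter, mem_SMz hXnn] at hn
      exact ⟨hn.1.1, (not_le.1 hn.2).le⟩)
    refine h3.trans (le_of_eq ?_)
    rw [hS, ← Real.exp_mul]
    ring_nf

lemma AA_lower' {b : ℕ} (hb : 2 ≤ b) {δ : ℝ} (hδ : 0 < δ) (hδ1 : δ < 1 / 4) {q : ℕ}
    (hx0 : ∀ x : ℝ, Real.exp ((1 - 2 * δ) * (Real.log b * q)) ≤ x →
      1 - δ ≤ (Nat.primeCounting ⌊x⌋₊ : ℝ) * Real.log x / x)
    (h1 : 3 ≤ δ * (Real.log b * q)) (h1' : 1 / δ ≤ δ * (Real.log b * q)) (h2 : b ≤ q) :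
    (b : ℝ) ^ q * ((1 - δ) ^ 2 / (Real.log b * q) *
      (VB b q - Real.exp (-(δ * (Real.log b * q) / 2)) * ZZ q) -
      q * Real.exp (-((1 - δ) * (Real.log b * q)))) ≤ AA b q := by
  set lb := Real.log b with hlb
  have hlb0 : 0 < lb := Real.log_pos (by exact_mod_cast hb)
  have hX3 : 3 ≤ δ * (lb * q) := h1
  have hXδ : 1 / δ ≤ δ * (lb * q) := h1'
  have hq0 : (0 : ℝ) < q := by exact_mod_cast (by omega : 0 < q)
  have hlq : 0 < lb * q := by positivity
  set X := b ^ q - 1 with hX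
  have hbr : (2 : ℝ) ≤ b := by exact_mod_cast hb
  have hbq : (b : ℝ) ^ q = Real.exp (lb * q) := by
    rw [mul_comm, Real.exp_nat_mul, hlb, Real.exp_log (by linarith)]
  have hXr : (X : ℝ) = (b : ℝ) ^ q - 1 := by
    rw [hX, Nat.cast_sub (Nat.one_le_pow _ _ (by omega))]
    push_cast
    rfl
  have hbig : 1 / δ ≤ (b : ℝ) ^ q := by
    rw [hbq]
    have e1 := Real.add_one_le_exp (lb * q)
    have e2 : δ * (lb * q) ≤ 1 * (lb * q) := mul_le_mul_of_nonneg_right (by linarith) hlq.le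
    linarith
  have hXge : (1 - δ) * (b : ℝ) ^ q ≤ X := by
    rw [hXr]
    rw [div_le_iff₀ hδ] at hbig
    linarith
  have hXnn : (0 : ℝ) ≤ X := Nat.cast_nonneg _
  have hXle : (X : ℝ) ≤ (b : ℝ) ^ q := by linarith
  set S := Real.exp (δ * (lb * q)) with hS
  have hS0 : 0 < S := Real.exp_pos _
  have hSX : S ≤ X := by
    refine le_trans ?_ hXge
    rw [hbq]
    have e1 : Real.exp (lb * q) = Real.exp ((1 - δ) * (lb * q)) * S := by
      rw [hS, ← Real.exp_add]; ring_nf
    rw [e1]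
    have e2 : 2 ≤ Real.exp ((1 - δ) * (lb * q)) := by
      have := Real.add_one_le_exp ((1 - δ) * (lb * q))
      have e3 : δ * (lb * q) ≤ (1 - δ) * (lb * q) := mul_le_mul_of_nonneg_right (by linarith) hlq.le
      linarith
    nlinarith
  rw [AA_eq hb h2]
  have hsub : SMz q S ⊆ SMz q (X : ℝ) := by
    intro n hn
    rw [mem_SMz hS0.le] at hn
    rw [mem_SMz hXnn]
    exact ⟨hn.1, hn.2.trans hSX⟩
  refine le_trans ?_ (Finset.sum_le_sum_of_subset_of_nonneg hsub fun i _ _ => by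
    split_ifs <;> positivity)
  have hterm : ∀ s ∈ SMz q S, (b : ℝ) ^ q * ((1 - δ) ^ 2 / (lb * q)) * copHom b s - q ≤
      (if s.Coprime b then (1 : ℝ) else 0) *
        (((Finset.Ioc 0 (X / s)).filter (fun l => l.Prime ∧ q < l)).card : ℝ) := by
    intro s hs
    rw [mem_SMz hS0.le] at hs
    obtain ⟨hs1, hsS⟩ := hs
    have hs0 : 0 < s := SM_pos hs1
    have hs0' : (0 : ℝ) < s := by exact_mod_cast hs0
    have hs1' : (1 : ℝ) ≤ s := by exact_mod_cast hs0
    rw [copHom_apply]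
    by_cases hc : s.Coprime b
    · rw [if_pos hc, if_pos hc, one_mul]
      refine le_trans ?_ (le_card_inner _ _)
      set x := (X : ℝ) / s with hx
      have hfl : X / s = ⌊x⌋₊ := by rw [hx, Nat.floor_div_eq_div]
      have hxlow : Real.exp ((1 - 2 * δ) * (lb * q)) ≤ x := by
        rw [hx, le_div_iff₀ hs0', hXr, hbq]
        have e1 : Real.exp (lb * q) = Real.exp ((1 - 2 * δ) * (lb * q)) *
            (Real.exp (δ * (lb * q)) * Real.exp (δ * (lb * q))) := by
          rw [← Real.exp_add, ← Real.exp_add]; ring_nf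
        rw [e1, ← hS]
        have e2 : 1 ≤ Real.exp ((1 - 2 * δ) * (lb * q)) := Real.one_le_exp (by
          apply mul_nonneg (by linarith) hlq.le)
        have e3 : 4 ≤ S := by
          have := Real.add_one_le_exp (δ * (lb * q))
          linarith
        have e4 : Real.exp ((1 - 2 * δ) * (lb * q)) * s ≤ Real.exp ((1 - 2 * δ) * (lb * q)) * S :=
          mul_le_mul_of_nonneg_left hsS (Real.exp_pos _).le
        have e5 : 1 ≤ Real.exp ((1 - 2 * δ) * (lb * q)) * S := by nlinarith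
        have e6 : Real.exp ((1 - 2 * δ) * (lb * q)) * S * 4 ≤
            Real.exp ((1 - 2 * δ) * (lb * q)) * S * S :=
          mul_le_mul_of_nonneg_left e3 (by positivity)
        nlinarith
      have hx0' : 0 < x := lt_of_lt_of_le (Real.exp_pos _) hxlow
      have hx1' : 1 < x := lt_of_lt_of_le (by
        have e1 := Real.add_one_le_exp ((1 - 2 * δ) * (lb * q))
        have e2 : δ * (lb * q) ≤ (1 - 2 * δ) * (lb * q) :=
          mul_le_mul_of_nonneg_right (by linarith) hlq.le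
        linarith : (1 : ℝ) < Real.exp ((1 - 2 * δ) * (lb * q))) hxlow
      have hlogx : Real.log x ≤ lb * q := by
        rw [Real.log_le_iff_le_exp hx0', ← hbq, hx, div_le_iff₀ hs0']
        have : (0 : ℝ) < (b : ℝ) ^ q := by positivity
        nlinarith
      have hlogx0 : 0 < Real.log x := Real.log_pos hx1'
      have h3 := hx0 x hxlow
      rw [le_div_iff₀ hx0'] at h3
      have h4 : (1 - δ) * x / (lb * q) ≤ (Nat.primeCounting (X / s) : ℝ) := by
        rw [hfl, div_le_iff₀ hlq]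
        have : (Nat.primeCounting ⌊x⌋₊ : ℝ) * Real.log x ≤
          (Nat.primeCounting ⌊x⌋₊ : ℝ) * (lb * q) := mul_le_mul_of_nonneg_left hlogx (by positivity)
        linarith
      have h5 : (1 - δ) * (b : ℝ) ^ q * (s : ℝ)⁻¹ ≤ x := by
        rw [hx, div_eq_mul_inv]
        exact mul_le_mul_of_nonneg_right hXge (by positivity)
      have h6 : (b : ℝ) ^ q * ((1 - δ) ^ 2 / (lb * q)) * (s : ℝ)⁻¹ ≤ (1 - δ) * x / (lb * q) := by
        have e1 : (b : ℝ) ^ q * ((1 - δ) ^ 2 / (lb * q)) * (s : ℝ)⁻¹ =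
            (1 - δ) * ((1 - δ) * (b : ℝ) ^ q * (s : ℝ)⁻¹) / (lb * q) := by ring
        rw [e1]
        apply div_le_div_of_nonneg_right _ hlq.le
        exact mul_le_mul_of_nonneg_left h5 (by linarith)
      linarith
    · rw [if_neg hc, if_neg hc]
      simp
  refine le_trans ?_ (Finset.sum_le_sum hterm)
  rw [Finset.sum_sub_distrib, ← Finset.mul_sum, Finset.sum_const, nsmul_eq_mul]
  have hcard : ((SMz q S).card : ℝ) * q ≤ S * q := by
    apply mul_le_mul_of_nonneg_right _ hq0.le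
    have h5 : (SMz q S).card ≤ (Finset.Ioc 0 ⌊S⌋₊).card := by
      apply Finset.card_le_card
      intro n hn
      rw [mem_SMz hS0.le] at hn
      rw [Finset.mem_Ioc]
      exact ⟨SM_pos hn.1, (Nat.le_floor_iff hS0.le).2 hn.2⟩
    rw [Nat.card_Ioc, Nat.sub_zero] at h5
    exact le_trans (by exact_mod_cast h5) (Nat.floor_le hS0.le)
  have hV := VB_le b q hS0
  have hSm : S ^ (-(1 / 2) : ℝ) = Real.exp (-(δ * (lb * q) / 2)) := by
    rw [hS, ← Real.exp_mul]; ring_nf
  rw [hSm] at hV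
  have h7 : (b : ℝ) ^ q * ((1 - δ) ^ 2 / (lb * q)) *
      (VB b q - Real.exp (-(δ * (lb * q) / 2)) * ZZ q) ≤
      (b : ℝ) ^ q * ((1 - δ) ^ 2 / (lb * q)) * ∑ s ∈ SMz q S, copHom b s := by
    apply mul_le_mul_of_nonneg_left (by linarith)
    have : 0 ≤ (1 - δ) ^ 2 / (lb * q) := by positivity
    positivity
  have h8 : (b : ℝ) ^ q * (q * Real.exp (-((1 - δ) * (lb * q)))) = S * q := by
    rw [hbq, hS]
    have : Real.exp (lb * q) * Real.exp (-((1 - δ) * (lb * q))) = Real.exp (δ * (lb * q)) := by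
      rw [← Real.exp_add]; ring_nf
    rw [← this]; ring
  have e9 : (b : ℝ) ^ q * ((1 - δ) ^ 2 / (lb * q) *
      (VB b q - Real.exp (-(δ * (lb * q) / 2)) * ZZ q) - q * Real.exp (-((1 - δ) * (lb * q)))) =
      (b : ℝ) ^ q * ((1 - δ) ^ 2 / (lb * q)) *
      (VB b q - Real.exp (-(δ * (lb * q) / 2)) * ZZ q) -
      (b : ℝ) ^ q * (q * Real.exp (-((1 - δ) * (lb * q)))) := by ring
  rw [e9, h8]
  linarith


/-- **The mean over the reduced residues, with error term.** -/
theorem mq_rate {b : ℕ} (hb : 2 ≤ b) : ∃ K : ℝ, 0 < K ∧ ∀ᶠ q : ℕ in atTop,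
    |mq b q - Real.exp Real.eulerMascheroniConstant / Real.log b * (Real.log q / q)| ≤ K / q := by
  obtain ⟨C, hC, hR⟩ := pi_rate
  obtain ⟨C1, hC1, hV⟩ := VV_rate
  obtain ⟨C2, hC2, hZ⟩ := ZZ_rate
  set G := Real.exp Real.eulerMascheroniConstant with hG
  have hG0 : 0 < G := Real.exp_pos _
  set a := Real.log b with ha'
  have ha : 0 < a := Real.log_pos (by exact_mod_cast hb)
  set ρ := (b.totient : ℝ) / b with hρdef
  have hρ : 0 < ρ := tot_ratio_pos hb
  have hρ1 : ρ ≤ 1 := by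
    rw [hρdef, div_le_one (by exact_mod_cast (by omega : 0 < b))]
    exact_mod_cast Nat.totient_le b
  set D0 := 2 / a * (C2 + 1) with hD0
  have hD0p : 0 < D0 := by positivity
  refine ⟨(8 * D0 * G + 4 * C1) / a + (1 / a + 2) / ρ, by positivity, ?_⟩
  have e1 : ∀ᶠ q : ℕ in atTop, 8 * D0 + 1 ≤ Real.log q := log_nat_tendsto.eventually_ge_atTop _
  have e2 : ∀ᶠ q : ℕ in atTop, (4 * C / (D0 * a) + 3 / (D0 * a) + 1 / (D0 ^ 2 * a)) * Real.log q ^ 2 ≤ q := by
    set A := 4 * C / (D0 * a) + 3 / (D0 * a) + 1 / (D0 ^ 2 * a) with hA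
    have hA0 : 0 < A := by positivity
    have h1 := (Real.isLittleO_pow_log_id_atTop (n := 2)).bound (show (0 : ℝ) < 1 / A by positivity)
    have h2 : ∀ᶠ x : ℝ in atTop, A * Real.log x ^ 2 ≤ x := by
      filter_upwards [h1, eventually_ge_atTop 1] with x hx hx1
      rw [Real.norm_of_nonneg (by positivity), id, Real.norm_of_nonneg (by linarith),
        one_div_mul_eq_div, le_div_iff₀ (by positivity)] at hx
      linarith
    exact tendsto_natCast_atTop_atTop.eventually h2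
  have e4 : ∀ᶠ q : ℕ in atTop, (4 : ℝ) / a ≤ q := tendsto_natCast_atTop_atTop.eventually_ge_atTop _
  have e6 : ∀ᶠ q : ℕ in atTop, 2 * Real.log q ^ 2 ≤ (q : ℝ) := by
    have h1 := (Real.isLittleO_pow_log_id_atTop (n := 2)).bound (show (0 : ℝ) < 1 / 2 by norm_num)
    have h2 : ∀ᶠ x : ℝ in atTop, 2 * Real.log x ^ 2 ≤ x := by
      filter_upwards [h1, eventually_ge_atTop 1] with x hx hx1
      rw [Real.norm_of_nonneg (by positivity), id, Real.norm_of_nonneg (by linarith)] at hx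
      linarith
    exact tendsto_natCast_atTop_atTop.eventually h2
  have e7 : ∀ᶠ q : ℕ in atTop, (q : ℝ) ^ 2 ≤ Real.exp (a * q / 2) := by
    have h1 := Pool.Agent.H305R2.log_nat_tendsto
    have h2 : ∀ᶠ x : ℝ in atTop, Real.log x ≤ (a / 4) * x := by
      have h3 := (Real.isLittleO_log_id_atTop).bound (show (0 : ℝ) < a / 4 by positivity)
      filter_upwards [h3, eventually_ge_atTop 1] with x hx hx1
      rwa [Real.norm_of_nonneg (Real.log_nonneg hx1), id, Real.norm_of_nonneg (by linarith)] at hx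
    filter_upwards [tendsto_natCast_atTop_atTop.eventually h2, eventually_ge_atTop 1] with q hq hq1
    have hq0 : (0 : ℝ) < q := by exact_mod_cast hq1
    rw [← Real.log_le_iff_le_exp (by positivity), Real.log_pow]
    push_cast
    linarith
  filter_upwards [e1, e2, e4, e6, e7, eventually_ge_atTop b, eventually_ge_atTop 3] with q
    h1 h2 h4 h6 h7 hqb hq3
  have hq3' : (3 : ℝ) ≤ q := by exact_mod_cast hq3
  have hq0 : (0 : ℝ) < q := by linarith
  set l := Real.log q with hl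
  have hl1 : 1 ≤ l := by linarith
  have hl0 : 0 < l := by linarith
  have haq : 0 < a * q := by positivity
  set δ := D0 / l with hδ
  have hδ0 : 0 < δ := by positivity
  have hδ8 : δ ≤ 1 / 8 := by
    rw [hδ, div_le_iff₀ hl0]
    linarith
  have hδ1 : δ < 1 / 4 := by linarith
  have hδl : δ * l = D0 := by rw [hδ]; field_simp
  -- consequences of the lower bound for `q`
  have hl2 : l ≤ l ^ 2 := by nlinarith
  have hq1 : 4 * C / (D0 * a) * l ^ 2 ≤ q := by
    have t1 : 0 ≤ 3 / (D0 * a) * l ^ 2 := by positivity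
    have t2 : 0 ≤ 1 / (D0 ^ 2 * a) * l ^ 2 := by positivity
    nlinarith
  have hq2 : 3 / (D0 * a) * l ^ 2 ≤ q := by
    have t1 : 0 ≤ 4 * C / (D0 * a) * l ^ 2 := by positivity
    have t2 : 0 ≤ 1 / (D0 ^ 2 * a) * l ^ 2 := by positivity
    nlinarith
  have hq3'' : 1 / (D0 ^ 2 * a) * l ^ 2 ≤ q := by
    have t1 : 0 ≤ 4 * C / (D0 * a) * l ^ 2 := by positivity
    have t2 : 0 ≤ 3 / (D0 * a) * l ^ 2 := by positivity
    nlinarith
  have c1 : 3 ≤ δ * (a * q) := by
    have t : 3 / (D0 * a) * l ≤ q := by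
      refine le_trans ?_ hq2
      exact mul_le_mul_of_nonneg_left hl2 (by positivity)
    rw [div_mul_eq_mul_div, div_le_iff₀ (by positivity)] at t
    rw [hδ, div_mul_eq_mul_div, le_div_iff₀ hl0]
    linarith
  have c2 : 1 / δ ≤ δ * (a * q) := by
    rw [div_mul_eq_mul_div, div_le_iff₀ (by positivity)] at hq3''
    rw [hδ, one_div_div, div_mul_eq_mul_div, div_le_div_iff₀ hD0p hl0]
    nlinarith
  have hRR : ∀ x : ℝ, Real.exp ((1 - 2 * δ) * (a * q)) ≤ x →
      |(Nat.primeCounting ⌊x⌋₊ : ℝ) * Real.log x / x - 1| ≤ δ := by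
    intro x hx
    have t0 : a * q / 2 ≤ (1 - 2 * δ) * (a * q) := by nlinarith
    have t1 : 4 / a ≤ (q : ℝ) := h4
    have t2 : 2 ≤ a * q / 2 := by
      rw [div_le_iff₀ ha] at t1
      linarith
    have hx0 : 0 < x := lt_of_lt_of_le (Real.exp_pos _) hx
    have hx2 : 2 ≤ x := by
      have := Real.add_one_le_exp ((1 - 2 * δ) * (a * q))
      linarith
    refine (hR x hx2).trans ?_
    have h8 : a * q / 2 ≤ Real.log x := by
      rw [Real.le_log_iff_exp_le hx0]
      exact (Real.exp_le_exp.2 t0).trans hx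
    calc C / Real.log x ≤ C / (a * q / 2) := by gcongr
      _ ≤ δ := by
          have t : 4 * C / (D0 * a) * l ≤ q := by
            refine le_trans ?_ hq1
            exact mul_le_mul_of_nonneg_left hl2 (by positivity)
          rw [div_mul_eq_mul_div, div_le_iff₀ (by positivity)] at t
          rw [hδ, div_le_div_iff₀ (by positivity) hl0]
          nlinarith
  have hU := AA_upper' hb hδ0 hδ1 (q := q) (fun x hx => by
    linarith [(abs_le.1 (hRR x hx)).2]) c1 hqb
  have hL := AA_lower' hb hδ0 hδ1 (q := q) (fun x hx => by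
    linarith [(abs_le.1 (hRR x hx)).1]) c1 c2 hqb
  rw [VB_eq hb hqb, ← hρdef, ← ha'] at hU hL
  -- the error terms
  obtain ⟨hV1, hV2⟩ := abs_le.1 (hV q (by omega))
  have hZq := hZ q (by omega)
  have hE0 : 0 ≤ Real.exp (-(δ * (a * q) / 2)) * ZZ q := mul_nonneg (Real.exp_pos _).le (ZZ_nonneg q)
  have hE : Real.exp (-(δ * (a * q) / 2)) * ZZ q ≤ 1 / q := by
    have h8 : δ * (a * q) / 2 = (C2 + 1) * (q / l) := by
      rw [hδ, hD0]
      field_simp
    calc Real.exp (-(δ * (a * q) / 2)) * ZZ q ≤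
          Real.exp (-((C2 + 1) * (q / l))) * Real.exp (C2 * (q / l)) := by
          rw [h8]
          exact mul_le_mul_of_nonneg_left hZq (Real.exp_pos _).le
      _ = Real.exp (-(q / l)) := by rw [← Real.exp_add]; congr 1; ring
      _ ≤ Real.exp (-l) := by
          refine Real.exp_le_exp.2 (neg_le_neg ?_)
          rw [le_div_iff₀ hl0, ← sq]
          nlinarith [sq_nonneg l]
      _ = 1 / q := by rw [Real.exp_neg, hl, Real.exp_log hq0, one_div]
  have hF : q * Real.exp (-((1 - δ) * (a * q))) ≤ 1 / q := by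
    have t0 : a * q / 2 ≤ (1 - δ) * (a * q) := by nlinarith
    have t1 : Real.exp (-((1 - δ) * (a * q))) ≤ Real.exp (-(a * q / 2)) :=
      Real.exp_le_exp.2 (neg_le_neg t0)
    have t2 : Real.exp (-(a * q / 2)) * (q : ℝ) ^ 2 ≤ 1 := by
      calc Real.exp (-(a * q / 2)) * (q : ℝ) ^ 2 ≤ Real.exp (-(a * q / 2)) * Real.exp (a * q / 2) := by
            gcongr
        _ = 1 := by rw [← Real.exp_add]; simp
    rw [le_div_iff₀ hq0]
    calc q * Real.exp (-((1 - δ) * (a * q))) * q ≤ q * Real.exp (-(a * q / 2)) * q := by gcongr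
      _ = Real.exp (-(a * q / 2)) * (q : ℝ) ^ 2 := by ring
      _ ≤ 1 := t2
  have hmq : mq b q = AA b q / ((b : ℝ) ^ q * ρ) := by
    unfold mq
    rw [tot_pow hb (by omega)]
  have hbq : 0 < (b : ℝ) ^ q := by
    have : (0 : ℝ) < b := by exact_mod_cast (by omega : 0 < b)
    positivity
  have hVle : VV q ≤ G * l + C1 := by linarith
  have hVge : G * l - C1 ≤ VV q := by linarith
  have hfrac : (1 + δ) / ((1 - 2 * δ) * (a * q)) ≤ (1 + 8 * δ) * (1 / (a * q)) := by
    rw [div_le_iff₀ (mul_pos (by linarith) haq)]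
    have : (1 + 8 * δ) * (1 / (a * q)) * ((1 - 2 * δ) * (a * q)) = (1 + 8 * δ) * (1 - 2 * δ) := by
      field_simp
    rw [this]
    nlinarith
  have h1q : 0 < 1 / (q : ℝ) := by positivity
  have hainv : 0 < 1 / (a * q) := by positivity
  have hup : mq b q ≤ G / a * (l / q) + ((8 * D0 * G + 4 * C1) / a + 1 / ρ) * (1 / q) := by
    have t1 : AA b q ≤ (b : ℝ) ^ q * ρ * ((1 + 8 * δ) * (1 / (a * q)) * (G * l + C1) + 1 / ρ * (1 / q)) := by
      refine hU.trans ?_
      rw [mul_assoc]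
      refine mul_le_mul_of_nonneg_left ?_ hbq.le
      have t2 : (1 + δ) / ((1 - 2 * δ) * (a * q)) * (VV q * ρ) ≤
          (1 + 8 * δ) * (1 / (a * q)) * ((G * l + C1) * ρ) := by
        refine mul_le_mul hfrac (mul_le_mul_of_nonneg_right hVle hρ.le)
          (mul_nonneg (VV_nonneg q) hρ.le) (by positivity)
      have t3 : ρ * ((1 + 8 * δ) * (1 / (a * q)) * (G * l + C1) + 1 / ρ * (1 / q)) =
          (1 + 8 * δ) * (1 / (a * q)) * ((G * l + C1) * ρ) + 1 / q := by
        field_simp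
      rw [t3]
      linarith
    rw [hmq, div_le_iff₀ (by positivity)]
    refine t1.trans ?_
    rw [mul_comm]
    refine mul_le_mul_of_nonneg_right ?_ (by positivity)
    have t4 : (1 + 8 * δ) * (1 / (a * q)) * (G * l + C1) =
        G / a * (l / q) + (8 * (δ * l) * G + (1 + 8 * δ) * C1) / a * (1 / q) := by
      field_simp
      ring
    rw [t4, hδl]
    have t5 : (8 * D0 * G + (1 + 8 * δ) * C1) / a * (1 / q) ≤ (8 * D0 * G + 4 * C1) / a * (1 / q) := by
      have : (1 + 8 * δ) * C1 ≤ 4 * C1 := mul_le_mul_of_nonneg_right (by linarith) hC1.le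
      gcongr
    have t6 : ((8 * D0 * G + 4 * C1) / a + 1 / ρ) * (1 / q) =
      (8 * D0 * G + 4 * C1) / a * (1 / q) + 1 / ρ * (1 / q) := by ring
    linarith
  have hlow : G / a * (l / q) - ((8 * D0 * G + 4 * C1) / a + (1 / a + 1) / ρ) * (1 / q) ≤ mq b q := by
    have t1 : (b : ℝ) ^ q * ρ * ((1 - 2 * δ) * (1 / (a * q)) * (G * l) - C1 * (1 / (a * q)) -
        (1 / a + 1) / ρ * (1 / q)) ≤ AA b q := by
      refine le_trans ?_ hL
      rw [mul_assoc]
      refine mul_le_mul_of_nonneg_left ?_ hbq.le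
      have t2 : ρ * ((1 - 2 * δ) * (1 / (a * q)) * (G * l) - C1 * (1 / (a * q)) -
        (1 / a + 1) / ρ * (1 / q)) = ((1 - 2 * δ) * (1 / (a * q)) * (G * l) - C1 * (1 / (a * q))) * ρ -
        (1 / a + 1) * (1 / q) := by
        field_simp
      rw [t2]
      have t3 : (1 - δ) ^ 2 / (a * q) * (VV q * ρ - Real.exp (-(δ * (a * q) / 2)) * ZZ q) =
          (1 - δ) ^ 2 * (1 / (a * q)) * VV q * ρ -
          (1 - δ) ^ 2 * (1 / (a * q)) * (Real.exp (-(δ * (a * q) / 2)) * ZZ q) := by ring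
      rw [t3]
      have t4 : (1 - δ) ^ 2 ≤ 1 := by nlinarith
      have t5 : 1 - 2 * δ ≤ (1 - δ) ^ 2 := by nlinarith
      have t6 : (1 - δ) ^ 2 * (1 / (a * q)) * (Real.exp (-(δ * (a * q) / 2)) * ZZ q) ≤
          1 / a * (1 / q) := by
        have t7 : (1 - δ) ^ 2 * (1 / (a * q)) ≤ 1 / a := by
          have t8 : 1 / (a * q) ≤ 1 / a := by
            apply one_div_le_one_div_of_le ha
            nlinarith
          calc (1 - δ) ^ 2 * (1 / (a * q)) ≤ 1 * (1 / a) := mul_le_mul t4 t8 hainv.le zero_le_one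
            _ = _ := one_mul _
        exact mul_le_mul t7 hE hE0 (by positivity)
      have t9 : (1 - 2 * δ) * (1 / (a * q)) * (G * l) - C1 * (1 / (a * q)) ≤
          (1 - δ) ^ 2 * (1 / (a * q)) * VV q := by
        have s1 : (1 - 2 * δ) * (G * l) - C1 ≤ (1 - δ) ^ 2 * VV q := by
          have s2 : (1 - 2 * δ) * (G * l) ≤ (1 - δ) ^ 2 * (G * l) :=
            mul_le_mul_of_nonneg_right t5 (by positivity)
          have s3 : (1 - δ) ^ 2 * (G * l - C1) ≤ (1 - δ) ^ 2 * VV q :=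
            mul_le_mul_of_nonneg_left hVge (sq_nonneg _)
          have s4 : (1 - δ) ^ 2 * C1 ≤ 1 * C1 := mul_le_mul_of_nonneg_right t4 hC1.le
          linarith
        calc (1 - 2 * δ) * (1 / (a * q)) * (G * l) - C1 * (1 / (a * q)) =
            ((1 - 2 * δ) * (G * l) - C1) * (1 / (a * q)) := by ring
          _ ≤ ((1 - δ) ^ 2 * VV q) * (1 / (a * q)) := mul_le_mul_of_nonneg_right s1 hainv.le
          _ = _ := by ring
      have t10 := mul_le_mul_of_nonneg_right t9 hρ.le
      linarith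
    rw [hmq, le_div_iff₀ (by positivity)]
    refine le_trans (le_of_eq_of_le (mul_comm _ _) (mul_le_mul_of_nonneg_left ?_ (by positivity))) t1
    have t4 : (1 - 2 * δ) * (1 / (a * q)) * (G * l) = G / a * (l / q) - 2 * (δ * l) * G / a * (1 / q) := by
      field_simp
    rw [t4, hδl]
    have t5 : C1 * (1 / (a * q)) = C1 / a * (1 / q) := by field_simp
    rw [t5]
    have t6 : ((8 * D0 * G + 4 * C1) / a + (1 / a + 1) / ρ) * (1 / q) =
      (8 * D0 * G + 4 * C1) / a * (1 / q) + (1 / a + 1) / ρ * (1 / q) := by ring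
    have t7 : 2 * D0 * G / a * (1 / q) + C1 / a * (1 / q) ≤ (8 * D0 * G + 4 * C1) / a * (1 / q) := by
      have : (8 * D0 * G + 4 * C1) / a * (1 / q) = 2 * D0 * G / a * (1 / q) + C1 / a * (1 / q) +
        ((6 * D0 * G + 3 * C1) / a * (1 / q)) := by ring
      rw [this]
      have : 0 ≤ (6 * D0 * G + 3 * C1) / a * (1 / q) := by positivity
      linarith
    rw [t6]
    linarith
  have hK : ((8 * D0 * G + 4 * C1) / a + (1 / a + 2) / ρ) / (q : ℝ) =
      ((8 * D0 * G + 4 * C1) / a + (1 / a + 1) / ρ) * (1 / q) + 1 / ρ * (1 / q) := by ring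
  have hρq : 0 < 1 / ρ * (1 / (q : ℝ)) := by positivity
  have haρ : 0 < 1 / a / ρ * (1 / (q : ℝ)) := by positivity
  have hK2 : ((8 * D0 * G + 4 * C1) / a + (1 / a + 1) / ρ) * (1 / q) =
      ((8 * D0 * G + 4 * C1) / a + 1 / ρ) * (1 / q) + 1 / a / ρ * (1 / q) := by ring
  rw [hK, abs_le]
  constructor <;> linarith

end Pool.Agent.Q43.BA
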